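import Pool.Agent.H73.PHS.Stmts

set_option autoImplicit false

open Set Filter Topology MeasureTheory Metric

namespace Pool.PHS

theorem DIV_thm : DIVStmt := by
  intro E _ _ _ _ _ μ _ f v hf hc
  have hfi : Integrable f μ := hf.continuous.integrable_of_hasCompactSupport hc
  have hdc : Continuous fun x => fderiv ℝ f x v :=
    (hf.continuous_fderiv one_ne_zero).clm_apply continuous_const
  have hdi : Integrable (fun x => fderiv ℝ f x v) μ :=
    hdc.integrable_of_hasCompactSupport (hc.fderiv_apply ℝ v)
  have h := integral_mul_fderiv_eq_neg_fderiv_mul_of_integrable (μ := μ) (𝕜 := ℝ)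
    (f := fun _ : E => (1 : ℝ)) (g := f) (v := v) (by simp) (by simpa using hdi)
    (by simpa using hfi) (fun x _ => differentiableAt_const _)
    (fun x _ => hf.differentiable one_ne_zero x)
  simpa using h

end Pool.PHS
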